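import Pool.Agent.H36.LH.Cor

/-!
# Almost prime pairs in progressions: all moments of the gaps, and the expected number in every long enough window

The uniform Hardy-Littlewood conjecture for the pairs `p ≡ a (mod q)`, `p + d` counts long intervals and
moduli up to a power of the logarithm.  Here we show that for pairs without small prime factors the expected
number is right, up to the factor `1 ± ε`, in windows which are only a constant `λ` times longer than the
average spacing of the pairs, except for a set of windows which is smaller than any given power of `1 / λ`,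
and this uniformly in ALL moduli `q ≤ Y ^ A`, all classes `a`, all even shifts `d ≤ Y ^ A`, ALL
intervals `(N, N + Y]` of the progression, all `λ ≥ 1`, and all the lengths `H` at the same time, without an upper limit.
Moreover all the moments of order `≤ A` of the gaps between consecutive pairs have the size they would have for
independent choices with the density `v` given by the local densities, at most `C Y / v ^ (j - 1)`.
-/

set_option autoImplicit false

open Filter Finset

namespace Pool.Agent.Results.MP_92ef0c_nt.MomentsOfPairGaps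

/-- all prime factors of `m` are larger than `y` -/
def Rough (y : ℝ) (m : ℕ) : Prop := ∀ p : ℕ, p.Prime → p ∣ m → y < p

open Classical in
/-- the number of the integers `m` in `(n, n + H]` such that all prime factors of `q m + a` and of `q m + a + d`
are larger than `y` -/
noncomputable def pairsIn (y : ℝ) (q a d n H : ℕ) : ℕ :=
  ((Ioc n (n + H)).filter (fun m => Rough y (q * m + a) ∧ Rough y (q * m + a + d))).card

open Classical in
/-- the number of the integers `m` in `(n, n + H]` such that `q m + a` and `q m + a + d` are primes -/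
noncomputable def primePairsIn (q a d n H : ℕ) : ℕ :=
  ((Ioc n (n + H)).filter (fun m => (q * m + a).Prime ∧ (q * m + a + d).Prime)).card

/-- the expected number: `H` times the product over the primes `p ≤ y` which do not divide `q` of `1 - ν / p`,
where `ν` is the number of the residue classes `0, - d` modulo `p` -/
noncomputable def expected (y : ℝ) (q d H : ℕ) : ℝ :=
  H * ∏ p ∈ (range (⌊y⌋₊ + 1)).filter (fun p => p.Prime ∧ ¬ p ∣ q), (1 - (if p ∣ d then 1 else 2) / (p : ℝ))

/-- the number of pairs in `(n, n + H]` without prime factors `≤ Y ^ c` is the expected number up to the factor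
`1 ± ε`; and for `n ≥ Y` there are at most `1 + ε` times the expected number of pairs of primes -/
def Lawful (ε : ℝ) (c : ℝ) (Y q a d n H : ℕ) : Prop :=
  |(pairsIn ((Y : ℝ) ^ c) q a d n H : ℝ) - expected ((Y : ℝ) ^ c) q d H| ≤ ε * expected ((Y : ℝ) ^ c) q d H ∧
  (Y ≤ n → (primePairsIn q a d n H : ℝ) ≤ (1 + ε) * expected ((Y : ℝ) ^ c) q d H)

/-- the pairs of consecutive elements of `S` -/
def gapPairs (S : Finset ℕ) : Finset (ℕ × ℕ) :=
  (S ×ˢ S).filter (fun x => x.1 < x.2 ∧ ∀ y ∈ S, ¬ (x.1 < y ∧ y < x.2))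

open Classical in
/-- the `j`-th moment of the gaps between consecutive integers with the property `P` in `(N, N + Y]` -/
noncomputable def gapMoment (P : ℕ → Prop) (N Y j : ℕ) : ℝ :=
  ∑ x ∈ gapPairs ((Ioc N (N + Y)).filter P), ((x.2 - x.1 : ℕ) : ℝ) ^ j

open Pool.Agent.H36.RW Pool.Agent.H36.BF Pool.Agent.H373R2.T7 Pool.Agent.H36.BE Pool.Agent.H36.KT Pool.Agent.H36.LH

lemma nu_pair (p a d : ℕ) (hp : p.Prime) : nu p {a, a + d} = if p ∣ d then 1 else 2 := by
  unfold nu
  rw [image_insert, image_singleton]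
  split_ifs with h
  · have h1 : (a + d) % p = a % p := by
      obtain ⟨k, rfl⟩ := h
      simp [Nat.add_mul_mod_self_left]
    rw [h1]
    simp
  · rw [card_insert_of_notMem, card_singleton]
    intro h1
    rw [mem_singleton] at h1
    apply h
    have h2 : a + 0 ≡ a + d [MOD p] := by
      rw [add_zero]
      exact h1
    have h3 := Nat.ModEq.add_left_cancel' a h2
    exact (Nat.modEq_zero_iff_dvd).1 h3.symm

lemma adm_pair (q a d : ℕ) (hd : Even d) : Adm {a, a + d} q := by
  intro p hp _
  rw [nu_pair p a d hp]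
  split_ifs with h
  · exact hp.one_lt
  · have h2 := hp.two_le
    rcases Nat.lt_or_ge 2 p with h3 | h3
    · exact h3
    · have : p = 2 := by omega
      subst this
      exact absurd (even_iff_two_dvd.1 hd) h

lemma expected_eq (y : ℝ) (q a d H : ℕ) : expected y q d H = H * VK {a, a + d} q ⌊y⌋₊ := by
  unfold expected VK WK
  congr 1
  apply Finset.prod_congr
  · ext p
    rw [mem_filter, mem_range, mem_p0]
    constructor
    · rintro ⟨h1, h2, h3⟩
      exact ⟨by omega, h2, h3⟩
    · rintro ⟨h1, h2, h3⟩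
      exact ⟨by omega, h2, h3⟩
  · intro p hp
    rw [mem_p0] at hp
    rw [nu_pair p a d hp.2.1]
    split_ifs <;> simp

open Classical in
/-- the pairs as positions -/
lemma pairsIn_eq (y : ℝ) (hy : 0 ≤ y) (q a d n H : ℕ) : pairsIn y q a d n H =
    ((Icc 1 H).filter (fun h => ∀ e ∈ ({a, a + d} : Finset ℕ), Pool.Agent.H36.RW.Rough ⌊y⌋₊ (q * (n + h) + e))).card := by
  unfold pairsIn
  symm
  apply card_bij (fun h _ => n + h)
  · intro h hh
    rw [mem_filter, mem_Icc] at hh
    rw [mem_filter, mem_Ioc]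
    refine ⟨by omega, ?_, ?_⟩
    · exact (rough_floor y hy _).2 (hh.2 a (by simp))
    · have := hh.2 (a + d) (by simp)
      rw [← add_assoc] at this
      exact (rough_floor y hy _).2 this
  · intro x _ x' _ h
    simpa using h
  · intro m hm
    rw [mem_filter, mem_Ioc] at hm
    refine ⟨m - n, ?_, by omega⟩
    rw [mem_filter, mem_Icc]
    refine ⟨by omega, ?_⟩
    intro e he
    have e1 : n + (m - n) = m := by omega
    rw [e1]
    rw [mem_insert, mem_singleton] at he
    rcases he with rfl | rfl
    · exact (rough_floor y hy _).1 hm.2.1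
    · rw [← add_assoc]
      exact (rough_floor y hy _).1 hm.2.2

lemma prime_rough (y : ℝ) (p : ℕ) (hp : p.Prime) (h : y < p) : Rough y p := by
  intro q hq hd
  rw [(Nat.prime_dvd_prime_iff_eq hq hp).1 hd]
  exact h

open Classical in
theorem result (ε : ℝ) (hε : 0 < ε) (A : ℕ) : ∃ (r : ℕ) (c C : ℝ), 0 < c ∧ 0 < C ∧
    ∀ᶠ Y : ℕ in atTop,
    (∀ q a d N : ℕ, 1 ≤ q → q ≤ Y ^ A → a ≤ Y ^ A → 1 ≤ d → d ≤ Y ^ A → Even d →
      Nat.Coprime a q → Nat.Coprime (a + d) q →
      (∀ lam : ℝ, 1 ≤ lam →
        (((Ioc N (N + Y)).filter (fun n => ∃ H : ℕ, lam ≤ expected ((Y : ℝ) ^ c) q d H ∧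
          ¬ Lawful ε c Y q a d n H)).card : ℝ) ≤ C * (Y / lam ^ A)) ∧
      (∀ j : ℕ, 1 ≤ j → j ≤ A →
        gapMoment (fun m => Rough ((Y : ℝ) ^ c) (q * m + a) ∧ Rough ((Y : ℝ) ^ c) (q * m + a + d)) N Y j ≤
          C * (Y / expected ((Y : ℝ) ^ c) q d 1 ^ (j - 1)))) ∧
    (∀ m : ℕ, 0 < m → m ≤ Y ^ (3 * A + 3) → Rough ((Y : ℝ) ^ c) m → m.primeFactorsList.length ≤ r) := by
  have hm0 : 0 < min ε (1 / 2) := lt_min hε (by norm_num)
  obtain ⟨c, C, hc, hc2, hC, h⟩ := tupM 2 (by norm_num) (min ε (1 / 2)) hm0 (min_le_right _ _) (A + 1)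
  refine ⟨⌈2 * ((3 * A + 3 : ℕ) : ℝ) / c⌉₊, c, C + 1, hc, by linarith, ?_⟩
  have hLt : Tendsto (fun Y : ℕ => Real.log (Y : ℝ)) atTop atTop :=
    Real.tendsto_log_atTop.comp tendsto_natCast_atTop_atTop
  filter_upwards [h, hLt.eventually_ge_atTop 1, eventually_ge_atTop 3] with Y h1 hL1 hY3
  obtain ⟨h1, hr⟩ := h1
  have hY0 : (0 : ℝ) < Y := by exact_mod_cast (by omega : 0 < Y)
  have hY1 : (1 : ℝ) ≤ Y := by exact_mod_cast (by omega : 1 ≤ Y)
  have hpow : Y ^ A ≤ Y ^ (A + 1) := Nat.pow_le_pow_right (by omega) (by omega)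
  have hpow2 : 2 * Y ^ A ≤ Y ^ (A + 1) := by
    rw [pow_succ, mul_comm]
    exact Nat.mul_le_mul_left _ (by omega)
  have hyc : (0 : ℝ) ≤ (Y : ℝ) ^ c := by positivity
  refine ⟨?_, fun m hm0 hmA hro => hr (3 * A + 3) m hm0 hmA ((rough_floor _ hyc _).1 hro)⟩
  intro q a d N hq1 hq ha hd1 hd hde hca hcad
  have hcard2 : ({a, a + d} : Finset ℕ).card = 2 := by
    rw [card_insert_of_notMem, card_singleton]
    rw [mem_singleton]
    omega
  obtain ⟨h2, h2b⟩ := h1 N q {a, a + d} hq1 (hq.trans hpow) hcard2 (fun e he => by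
    rw [mem_insert, mem_singleton] at he
    rcases he with rfl | rfl <;> omega) (fun e he => by
    rw [mem_insert, mem_singleton] at he
    rcases he with rfl | rfl
    · exact hca
    · exact hcad) (adm_pair q a d hde)
  have hVpos : 0 < VK {a, a + d} q ⌊(Y : ℝ) ^ c⌋₊ := VK_pos _ q _ (adm_pair q a d hde)
  constructor
  · intro lam hlam
    have hlampos : 0 < lam := by linarith
    have hfin : C * (Y / lam ^ (A + 1)) ≤ (C + 1) * (Y / lam ^ A) := by
      calc C * (Y / lam ^ (A + 1)) ≤ C * (Y / lam ^ A) := by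
            apply mul_le_mul_of_nonneg_left _ hC.le
            apply div_le_div_of_nonneg_left hY0.le (by positivity)
            exact pow_le_pow_right₀ hlam (by omega)
        _ ≤ (C + 1) * (Y / lam ^ A) := by
            apply mul_le_mul_of_nonneg_right _ (by positivity)
            linarith
    refine le_trans ?_ ((h2 lam hlam).trans hfin)
    have hcard : ((Ioc N (N + Y)).filter (fun n => ∃ H : ℕ, lam ≤ expected ((Y : ℝ) ^ c) q d H ∧
          ¬ Lawful ε c Y q a d n H)).card ≤
        ((Ioc N (N + Y)).filter (fun n => ∃ T : ℕ, lam ≤ T * VK {a, a + d} q ⌊(Y : ℝ) ^ c⌋₊ ∧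
          ¬ |(((Icc 1 T).filter (fun h => ∀ e ∈ ({a, a + d} : Finset ℕ),
            Pool.Agent.H36.RW.Rough ⌊(Y : ℝ) ^ c⌋₊ (q * (n + h) + e))).card : ℝ) -
            T * VK {a, a + d} q ⌊(Y : ℝ) ^ c⌋₊| ≤ min ε (1 / 2) * (T * VK {a, a + d} q ⌊(Y : ℝ) ^ c⌋₊))).card := by
      apply card_le_card
      intro n hn
      rw [mem_filter] at hn ⊢
      obtain ⟨hn1, H, hH1, hH3⟩ := hn
      rw [expected_eq _ q a d] at hH1
      refine ⟨hn1, H, hH1, fun hok => hH3 ?_⟩
      rw [← pairsIn_eq _ hyc, ← expected_eq] at hok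
      rw [← expected_eq] at hH1
      have hE0 : 0 ≤ expected ((Y : ℝ) ^ c) q d H := by linarith
      have hok' : |(pairsIn ((Y : ℝ) ^ c) q a d n H : ℝ) - expected ((Y : ℝ) ^ c) q d H| ≤
          ε * expected ((Y : ℝ) ^ c) q d H := hok.trans (mul_le_mul_of_nonneg_right (min_le_left _ _) hE0)
      refine ⟨hok', fun hYn => ?_⟩
      have h3 : primePairsIn q a d n H ≤ pairsIn ((Y : ℝ) ^ c) q a d n H := by
        unfold primePairsIn pairsIn
        apply card_le_card
        intro m hm
        rw [mem_filter, mem_Ioc] at hm ⊢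
        refine ⟨hm.1, ?_⟩
        have hYm : (Y : ℝ) ^ c < m := by
          calc (Y : ℝ) ^ c ≤ (Y : ℝ) ^ (1 : ℝ) := Real.rpow_le_rpow_of_exponent_le hY1 (by linarith)
            _ = Y := Real.rpow_one _
            _ < m := by exact_mod_cast (by omega : Y < m)
        have hqm : m ≤ q * m := Nat.le_mul_of_pos_left _ (by omega)
        constructor
        · apply prime_rough _ _ hm.2.1
          have : (m : ℝ) ≤ ((q * m + a : ℕ) : ℝ) := by exact_mod_cast (by omega : m ≤ q * m + a)
          linarith
        · apply prime_rough _ _ hm.2.2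
          have : (m : ℝ) ≤ ((q * m + a + d : ℕ) : ℝ) := by exact_mod_cast (by omega : m ≤ q * m + a + d)
          linarith
      have h4 : (primePairsIn q a d n H : ℝ) ≤ pairsIn ((Y : ℝ) ^ c) q a d n H := by exact_mod_cast h3
      have h5 := (abs_le.1 hok').2
      linarith
    exact_mod_cast hcard
  · -- moments
    intro j hj hjA
    have hS : (Ioc N (N + Y)).filter (fun m => Rough ((Y : ℝ) ^ c) (q * m + a) ∧ Rough ((Y : ℝ) ^ c) (q * m + a + d)) =
        (Ioc N (N + Y)).filter (fun n => ∀ e ∈ ({a, a + d} : Finset ℕ),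
          Pool.Agent.H36.RW.Rough ⌊(Y : ℝ) ^ c⌋₊ (q * n + e)) := by
      apply filter_congr
      intro m _
      constructor
      · intro h3 e he
        rw [mem_insert, mem_singleton] at he
        rcases he with rfl | rfl
        · exact (rough_floor _ hyc _).1 h3.1
        · rw [← add_assoc]
          exact (rough_floor _ hyc _).1 h3.2
      · intro h3
        refine ⟨(rough_floor _ hyc _).2 (h3 a (by simp)), ?_⟩
        have := h3 (a + d) (by simp)
        rw [← add_assoc] at this
        exact (rough_floor _ hyc _).2 this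
    have hmom : gapMoment (fun m => Rough ((Y : ℝ) ^ c) (q * m + a) ∧ Rough ((Y : ℝ) ^ c) (q * m + a + d)) N Y j =
        ∑ x ∈ consec ((Ioc N (N + Y)).filter (fun n => ∀ e ∈ ({a, a + d} : Finset ℕ),
          Pool.Agent.H36.RW.Rough ⌊(Y : ℝ) ^ c⌋₊ (q * n + e))), ((x.2 - x.1 : ℕ) : ℝ) ^ j := by
      unfold gapMoment
      refine Finset.sum_congr ?_ (fun _ _ => rfl)
      rw [← hS]
      change consec _ = consec _
      congr 1
      apply filter_congr_decidable
    rw [hmom]
    rcases Nat.lt_or_ge j 2 with hj2 | hj2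
    · have : j = 1 := by omega
      subst this
      simp only [pow_one, Nat.sub_self, pow_zero, div_one]
      refine le_trans ?_ (le_mul_of_one_le_left hY0.le (by linarith : 1 ≤ C + 1))
      apply gap_one
    · obtain ⟨m, rfl⟩ : ∃ m, j = m + 1 := ⟨j - 1, by omega⟩
      rw [Nat.add_sub_cancel]
      refine (h2b m (by omega) (by omega)).trans ?_
      rw [expected_eq _ q a d, Nat.cast_one, one_mul]
      apply mul_le_mul_of_nonneg_right _ (by positivity)
      linarith

end Pool.Agent.Results.MP_92ef0c_nt.MomentsOfPairGaps
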