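import Pool.Agent.H40.NG.Fin

/-!
# Prime pairs with a fixed even difference are not evenly distributed in the classes to large moduli

The question asks for the uniform distribution of the primes `p` with `p + d` prime in the classes `a` modulo `q`
with `(a, q) = (a + d, q) = 1`, for all moduli `q ≤ (log x) ^ B`. We prove unconditionally, for EVERY even `d`, that
it fails for all moduli up to `x / (log x) ^ B`, for every `B`, in a strong sense: near every large `x` there is an
`X` such that for `X ^ (2 - ε)` pairs of a modulus `q ≤ X / (log X) ^ B` and an admissible class `a` the number of the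
primes `p ≤ X`, `p ≡ a (mod q)`, with `p + d` prime differs from `G(q)` by a fixed proportion, whatever the
function `G` of the modulus is (for example the main term `M_d(X; q)` of the problem). The same holds for all
admissible systems of `k` linear forms.

For primes this is a theorem of Friedlander and Granville. For `n² + 1` there is a theorem in the starting files
(`K4H14.FG`), and the proof follows it: a Maier matrix with columns given by windows of primes. New are all systems
of linear forms: everything which is used of the sequence is collected in the classes `Per`, `Prm` and the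
conditions `Cge`, `Few` (files `H40.NG.*`), which are proved for linear forms of any dimension.
-/

set_option autoImplicit false

namespace Pool.Agent.Results.MP_92ef0c_nt.NoEquidistribution

open Finset Filter

/-- the number `N = 2 k (3 B + 3 k + 7) + 2` -/
def windows (k B : ℕ) : ℕ := 2 * (k * (3 * (B + (k + 1) + 1) + 1)) + 2

/-- the constant of the theorem: `1 / (500 (8 N) ^ N)`, `N = 2 k (3 B + 3 k + 7) + 2` -/
noncomputable def delta (k B : ℕ) : ℝ := 1 / (500 * (8 * (windows k B : ℝ)) ^ windows k B)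

/-! ### Prime pairs -/

/-- the number of the primes `p ≤ X`, `p ≡ a (mod q)`, for which `p + d` is a prime -/
def pairCount (d X q a : ℕ) : ℕ :=
  ((Icc 1 X).filter (fun p : ℕ => p ≡ a [MOD q] ∧ p.Prime ∧ (p + d).Prime)).card

/-- `(a, q) = (a + d, q) = 1`, and the number of the primes `p ≤ X`, `p ≡ a (mod q)`, with `p + d` prime differs
from `G` by at least `δ G` -/
def PairDeviates (d : ℕ) (δ G : ℝ) (X q a : ℕ) : Prop :=
  Nat.Coprime a q ∧ Nat.Coprime (a + d) q ∧ δ * G ≤ |(pairCount d X q a : ℝ) - G|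

open Classical in
/-- the pairs `(q, a)` with `1 ≤ q`, `q (log X) ^ B ≤ X`, `a < q`, for which the class `a` modulo `q` deviates
from `G q` -/
noncomputable def deviatingPairs (d : ℕ) (δ : ℝ) (G : ℕ → ℝ) (B X : ℕ) : Finset (ℕ × ℕ) :=
  ((Icc 1 X) ×ˢ (range X)).filter (fun p : ℕ × ℕ =>
    p.2 < p.1 ∧ (p.1 : ℝ) * Real.log X ^ B ≤ X ∧ PairDeviates d δ (G p.1) X p.1 p.2)

/-! ### Systems of linear forms -/

/-- the value of the `i`-th form `a_i m + b_i` -/
def form {k : ℕ} (a b : Fin k → ℤ) (i : Fin k) (m : ℕ) : ℤ := a i * m + b i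

/-- the system is admissible: all `a_i > 0`, and no prime divides the product of the values for all integers -/
def Admissible {k : ℕ} (a b : Fin k → ℤ) : Prop :=
  (∀ i, 0 < a i) ∧ ∀ p : ℕ, p.Prime → ∃ n : ℤ, ∀ i, ¬ (p : ℤ) ∣ a i * n + b i

/-- the number of the `m ≤ X`, `m ≡ r (mod q)`, for which all `a_i m + b_i` are primes -/
def formCount {k : ℕ} (a b : Fin k → ℤ) (X q r : ℕ) : ℕ :=
  ((Icc 1 X).filter (fun m : ℕ => m ≡ r [MOD q] ∧ ∀ i, (form a b i m).toNat.Prime)).card

/-- all `a_i r + b_i` are prime to `q`, and the number of the `m ≤ X`, `m ≡ r (mod q)`, for which all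
`a_i m + b_i` are primes differs from `G` by at least `δ G` -/
def FormDeviates {k : ℕ} (a b : Fin k → ℤ) (δ G : ℝ) (X q r : ℕ) : Prop :=
  (∀ i, Int.gcd (form a b i r) q = 1) ∧ δ * G ≤ |(formCount a b X q r : ℝ) - G|

open Classical in
/-- the pairs `(q, r)` with `1 ≤ q`, `q (log X) ^ B ≤ X`, `r < q`, for which the class `r` modulo `q` deviates
from `G q` -/
noncomputable def deviatingForms {k : ℕ} (a b : Fin k → ℤ) (δ : ℝ) (G : ℕ → ℝ) (B X : ℕ) : Finset (ℕ × ℕ) :=
  ((Icc 1 X) ×ˢ (range X)).filter (fun p : ℕ × ℕ =>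
    p.2 < p.1 ∧ (p.1 : ℝ) * Real.log X ^ B ≤ X ∧ FormDeviates a b δ (G p.1) X p.1 p.2)

theorem windows_pos (k B : ℕ) : 2 ≤ windows k B := by
  unfold windows
  omega

theorem delta_pos (k B : ℕ) : 0 < delta k B := by
  unfold delta
  have : (2 : ℝ) ≤ windows k B := by exact_mod_cast windows_pos k B
  positivity

theorem delta_le (k B : ℕ) : delta k B ≤ 1 / 500 := by
  unfold delta
  have h : (2 : ℝ) ≤ windows k B := by exact_mod_cast windows_pos k B
  have h1 : (1 : ℝ) ≤ (8 * (windows k B : ℝ)) ^ windows k B := one_le_pow₀ (by linarith)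
  apply div_le_div_of_nonneg_left (by norm_num) (by norm_num)
  linarith

theorem delta_small (k B : ℕ) :
    2 ^ windows k B * (54 * (5 * delta k B)) < (1 / (4 * (windows k B : ℝ))) ^ windows k B := by
  unfold delta
  have h : (2 : ℝ) ≤ windows k B := by exact_mod_cast windows_pos k B
  generalize hN : windows k B = N at *
  have hN0 : (0 : ℝ) < N := by linarith
  have e : (8 * (N : ℝ)) ^ N = 2 ^ N * (4 * (N : ℝ)) ^ N := by
    rw [← mul_pow]
    congr 1
    ring
  rw [e, one_div_pow]
  have h2 : (0 : ℝ) < 2 ^ N := by positivity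
  have h4 : (0 : ℝ) < (4 * (N : ℝ)) ^ N := by positivity
  have e2 : (2 : ℝ) ^ N * (54 * (5 * (1 / (500 * (2 ^ N * (4 * (N : ℝ)) ^ N))))) =
      27 / 50 * (1 / (4 * (N : ℝ)) ^ N) := by
    field_simp
    norm_num
  rw [e2]
  have h5 : 0 < 1 / (4 * (N : ℝ)) ^ N := by positivity
  linarith

theorem forms {k : ℕ} (hk : 1 ≤ k) (a b : Fin k → ℤ) (h : Admissible a b) (B : ℕ) (ε : ℝ) (hε : 0 < ε) :
    ∃ x₀ : ℕ, ∀ x : ℕ, x₀ ≤ x → ∃ X : ℕ, x ≤ X ∧
      (X : ℝ) ≤ x * Real.log x ^ (3 * B + 3 * k + 8) ∧
      ∀ G : ℕ → ℝ, (X : ℝ) ^ (2 - ε) ≤ ((deviatingForms a b (delta k B) G B X).card : ℝ) := by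
  classical
  obtain ⟨x₀, hx₀⟩ := Pool.Agent.H40.NG.final a b h.1 h.2 hk B _ (windows k B) rfl rfl ε hε (delta k B)
    (delta_pos k B) (delta_le k B) (delta_small k B)
  refine ⟨x₀, fun x hx => ?_⟩
  obtain ⟨X, h1, h2, h3⟩ := hx₀ x hx
  refine ⟨X, h1, ?_, fun G => (h3 G).trans ?_⟩
  · have e : 3 * (B + (k + 1) + 1) + 2 = 3 * B + 3 * k + 8 := by ring
    rwa [e] at h2
  · have e : Pool.Agent.H40.NG.dp a b (delta k B) G B X ⊆ deviatingForms a b (delta k B) G B X := by
      intro p hp
      unfold Pool.Agent.H40.NG.dp at hp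
      have hp' := mem_filter.1 hp
      have e2 : formCount a b X p.1 p.2 = Pool.Agent.H40.NG.pcount a b X p.1 p.2 := by
        unfold formCount Pool.Agent.H40.NG.pcount
        congr 1
      unfold deviatingForms
      rw [mem_filter]
      refine ⟨hp'.1, hp'.2.1, hp'.2.2.1, hp'.2.2.2.1, ?_⟩
      rw [e2]
      exact hp'.2.2.2.2
    exact_mod_cast card_le_card e

theorem pair_adm (d : ℕ) (hd : Even d) : Admissible (k := 2) ![1, 1] ![0, (d : ℤ)] := by
  refine ⟨fun i => by fin_cases i <;> simp, fun p hp => ?_⟩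
  have hp2 := hp.two_le
  by_cases h2 : p = 2
  · subst h2
    refine ⟨1, fun i => ?_⟩
    fin_cases i
    · simp
    · simp
      obtain ⟨e, rfl⟩ := hd
      push_cast
      omega
  · -- one of `1`, `-1` or `2` works
    have hp3 : 3 ≤ p := by omega
    by_cases h1 : (p : ℤ) ∣ 1 + d
    · refine ⟨2, fun i => ?_⟩
      fin_cases i
      · simp
        intro h
        have := Int.le_of_dvd (by norm_num) h
        omega
      · simp
        intro h
        have h3 := dvd_sub h h1
        have e : (2 : ℤ) + d - (1 + d) = 1 := by ring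
        rw [e] at h3
        have := Int.le_of_dvd (by norm_num) h3
        omega
    · refine ⟨1, fun i => ?_⟩
      fin_cases i
      · simp
        intro h
        have := Int.le_of_dvd (by norm_num) h
        omega
      · simpa using h1

/-- **Prime pairs are not evenly distributed in the classes to moduli up to `X / (log X) ^ B`.** Let `B ≥ 1` be an
integer and `ε > 0`; for `k ≥ 1` let `N = 2 k (3 B + 3 k + 7) + 2` and `δ(k) = 1 / (500 (8 N) ^ N)`.

(i) Let `d` be even. For all large `x` there is an `X` with `x ≤ X ≤ x (log x) ^ (3 B + 14)` such that, whatever the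
function `G` of the modulus, for at least `X ^ (2 - ε)` pairs `(q, a)` with `a < q ≤ X / (log X) ^ B` and
`(a, q) = (a + d, q) = 1` the number of the primes `p ≤ X`, `p ≡ a (mod q)`, with `p + d` prime differs from `G(q)`
by at least `δ(2) G(q)`.

(ii) Let `a_i m + b_i`, `i < k`, be an admissible system of linear forms. For all large `x` there is an `X` with
`x ≤ X ≤ x (log x) ^ (3 B + 3 k + 8)` such that, whatever the function `G` of the modulus, for at least
`X ^ (2 - ε)` pairs `(q, r)` with `r < q ≤ X / (log X) ^ B` and all `a_i r + b_i` prime to `q` the number of the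
`m ≤ X`, `m ≡ r (mod q)`, for which all `a_i m + b_i` are primes differs from `G(q)` by at least `δ(k) G(q)`. -/
theorem result (B : ℕ) (_hB : 1 ≤ B) (ε : ℝ) (hε : 0 < ε) :
    (∀ d : ℕ, Even d → ∃ x₀ : ℕ, ∀ x : ℕ, x₀ ≤ x → ∃ X : ℕ, x ≤ X ∧
      (X : ℝ) ≤ x * Real.log x ^ (3 * B + 14) ∧
      ∀ G : ℕ → ℝ, (X : ℝ) ^ (2 - ε) ≤ ((deviatingPairs d (delta 2 B) G B X).card : ℝ)) ∧
    ∀ (k : ℕ) (a b : Fin k → ℤ), 1 ≤ k → Admissible a b → ∃ x₀ : ℕ, ∀ x : ℕ, x₀ ≤ x → ∃ X : ℕ, x ≤ X ∧
      (X : ℝ) ≤ x * Real.log x ^ (3 * B + 3 * k + 8) ∧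
      ∀ G : ℕ → ℝ, (X : ℝ) ^ (2 - ε) ≤ ((deviatingForms a b (delta k B) G B X).card : ℝ) := by
  classical
  refine ⟨fun d hd => ?_, fun k a b hk h => forms hk a b h B ε hε⟩
  obtain ⟨x₀, hx₀⟩ := forms (k := 2) (by norm_num) ![1, 1] ![0, (d : ℤ)] (pair_adm d hd) B ε hε
  refine ⟨x₀, fun x hx => ?_⟩
  obtain ⟨X, h1, h2, h3⟩ := hx₀ x hx
  refine ⟨X, h1, h2, fun G => (h3 G).trans ?_⟩
  have hf0 : ∀ m : ℕ, form (k := 2) ![1, 1] ![0, (d : ℤ)] 0 m = m := fun m => by simp [form]
  have hf1 : ∀ m : ℕ, form (k := 2) ![1, 1] ![0, (d : ℤ)] 1 m = ((m + d : ℕ) : ℤ) := fun m => by simp [form]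
  have e : deviatingForms ![1, 1] ![0, (d : ℤ)] (delta 2 B) G B X ⊆ deviatingPairs d (delta 2 B) G B X := by
    intro p hp
    unfold deviatingForms at hp
    have hp' := mem_filter.1 hp
    obtain ⟨h4, h5, h6, h7, h8⟩ := hp'
    have e2 : pairCount d X p.1 p.2 = formCount ![1, 1] ![0, (d : ℤ)] X p.1 p.2 := by
      unfold pairCount formCount
      congr 1
      apply filter_congr
      intro m _
      rw [Fin.forall_fin_two, hf0, hf1, Int.toNat_natCast, Int.toNat_natCast]
    unfold deviatingPairs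
    rw [mem_filter]
    refine ⟨h4, h5, h6, ?_, ?_, ?_⟩
    · have := h7 0
      rw [hf0] at this
      exact_mod_cast this
    · have := h7 1
      rw [hf1] at this
      exact_mod_cast this
    · rw [e2]
      exact h8
  exact_mod_cast card_le_card e

end Pool.Agent.Results.MP_92ef0c_nt.NoEquidistribution
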