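import Pool.Agent.H96.ED.C

/-!
# Prime pairs in progressions, uniformly in the progression, for almost all differences in arbitrary thin families
# inside the residue classes of EVERY modulus `m ≤ x ^ (2 / 3 - ρ)`

The differences are the even integers near `b + m s i`, where `b` is any integer, `m ≤ x ^ (2 / 3 - ρ)` is any modulus
(there are no exceptional moduli) and `s i`, `i ∈ ι`, is an ARBITRARY family of integers with an additive energy of
some order which is minimal, at the scale `x / m`, up to a power of the logarithm. The family may have as few as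
`(x / m) ^ δ` members, so it is a very thin subset of its residue class. For instance the `s i` may be the values of a
polynomial at an arbitrary dense set of arguments (`b + m p ^ 2` with primes `p`), or products of members of `k ≥ 2` such
families, changed by arbitrary functions each of which does not depend on one of the members.

Proof: the mean square over a whole residue class of the error for the prime pairs (library: projects `R460/GQ` and
`R460/GS`, no zero-free region for the characters modulo `m` is needed) is combined, by Hölder's inequality and a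
splitting of the circle according to the size of the exponential sum over the family, with the bound for the
mean value of the exponential sum of the error over the class, which is a sum of products of the sums over the residue
classes (`Pool.Agent.H96.EM`). The energies of the perturbed products are estimated with an inequality of the type of
Gowers, Cauchy and Schwarz (`Pool.Agent.H96.PR`).

From Mathlib: `a ≡ b [MOD q]`: congruence; `∫ t in (2 : ℝ)..y`: the integral over `[2, y]`; `n.primeFactors`: the prime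
divisors of `n`; `ℤ[X]`: the polynomials with integer coefficients.
-/

set_option autoImplicit false

namespace Pool.Agent.Results.MP_92ef0c_nt.ThinFamiliesInEveryClass

open Finset Polynomial

/-- The twin prime constant `C₂ = ∏_{p > 2} (1 - 1 / (p - 1) ^ 2)`: the infimum of the decreasing partial products
over the primes `3 ≤ p ≤ z`. -/
noncomputable def C₂ : ℝ := ⨅ z : ℕ, ∏ p ∈ (Icc 3 z).filter Nat.Prime, (1 - 1 / ((p : ℝ) - 1) ^ 2)

open Classical in
/-- `π_d(y; a, q)`: the number of primes `p ≤ y` with `p + d ≤ y` prime and `p ≡ a (mod q)`. (For even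
`d > 0` such a prime `p` is automatically odd.) -/
noncomputable def pairs (d : ℕ) (y : ℝ) (a q : ℕ) : ℕ :=
  ((range (⌊y⌋₊ + 1)).filter (fun p => p.Prime ∧ (p + d).Prime ∧ (p : ℝ) + d ≤ y ∧ p ≡ a [MOD q])).card

/-- The main term `M_d(y; q)` of the problem. -/
noncomputable def main (d : ℕ) (y : ℝ) (q : ℕ) : ℝ :=
  2 / (((range q).filter (fun α => Nat.Coprime α q ∧ Nat.Coprime (α + d) q)).card : ℝ) *
    (∏ p ∈ d.primeFactors.filter (fun p => 2 < p), ((p : ℝ) - 1) / ((p : ℝ) - 2)) * C₂ *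
    ∫ t in (2 : ℝ)..y, 1 / Real.log t ^ 2

/-- The estimate of the problem for the difference `d`, with the bound `x / (log x) ^ C`, for all `y ≤ x`, all
moduli `q ≤ (log x) ^ B` and all admissible classes `a`. -/
def Holds (B C : ℕ) (x : ℝ) (d : ℕ) : Prop :=
  ∀ q a : ℕ, 1 ≤ q → (q : ℝ) ≤ Real.log x ^ B → Nat.Coprime a q → Nat.Coprime (a + d) q →
    ∀ y : ℝ, 2 ≤ y → y ≤ x → |(pairs d y a q : ℝ) - main d y q| ≤ x / Real.log x ^ C

/-- There is an even difference `0 < d ≤ x / (log x) ^ (C + 6)` with `|d - v| ≤ (log x) ^ T` and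
`gcd(d, m) ≤ (log x) ^ T` for which `Holds` fails. -/
def Bad (B C T : ℕ) (x : ℝ) (m : ℕ) (v : ℤ) : Prop :=
  ∃ d : ℕ, 0 < d ∧ (d : ℝ) ≤ x / Real.log x ^ (C + 6) ∧ Even d ∧ |(d : ℝ) - v| ≤ Real.log x ^ T ∧
    (Nat.gcd d m : ℝ) ≤ Real.log x ^ T ∧ ¬ Holds B C x d

/-- The additive energy of order `h` of a finite family of integers: the number of the solutions of
`v (i 1) + ... + v (i h) = v (j 1) + ... + v (j h)`. -/
noncomputable def energy (h : ℕ) {ι : Type} [Fintype ι] (v : ι → ℤ) : ℕ :=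
  Nat.card {q : (Fin h → ι) × (Fin h → ι) // ∑ j, v (q.1 j) = ∑ j, v (q.2 j)}

/-- `f j z` does not depend on the coordinate `z j`, for all `j`; otherwise these functions are arbitrary. -/
def Free {k : ℕ} {Z : Fin k → Type} (f : Fin k → (∀ j, Z j) → ℤ) : Prop :=
  ∀ (j : Fin k) (z z' : ∀ j, Z j), (∀ t, t ≠ j → z t = z' t) → f j z = f j z'

open Classical in
/-- arbitrary families -/
lemma general (ρ : ℝ) (hρ : 0 < ρ) (A B C T C₀ h : ℕ) : ∃ x₀ : ℝ, ∀ x : ℝ, x₀ ≤ x → ∀ m : ℕ, 1 ≤ m →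
      (m : ℝ) ≤ x ^ (2 / 3 - ρ) → ∀ (b : ℤ) (ι : Type) [Fintype ι] (s : ι → ℤ),
      (energy h s : ℝ) * (x / m) ≤ Real.log x ^ C₀ * (Fintype.card ι : ℝ) ^ (2 * h) →
      (((univ : Finset ι).filter (fun i => Bad B C T x m (b + m * s i))).card : ℝ) ≤
        Fintype.card ι / Real.log x ^ A := by
  obtain ⟨x₀, h0⟩ := Pool.Agent.H96.ED.gd_win ρ hρ A B C T C₀ h
  refine ⟨x₀, fun x hx m hm1 hm b ι _ s hE => ?_⟩
  refine h0 x hx m hm1 hm b ι s ?_
  have hm0 : (0 : ℝ) < m := by exact_mod_cast hm1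
  have e1 : (energy h s : ℝ) * (x / m) * m = energy h s * x := by field_simp
  have h1 := mul_le_mul_of_nonneg_right hE hm0.le
  rw [e1] at h1
  calc (Pool.Agent.TH935.GF.En h s : ℝ) * x = energy h s * x := rfl
    _ ≤ _ := h1
    _ = _ := by ring

open Classical in
/-- polynomials -/
lemma polys (ρ : ℝ) (hρ : 0 < ρ) (A B C T C₀ : ℕ) (g : ℤ[X]) (hg : 1 ≤ g.natDegree) :
    ∃ x₀ : ℝ, ∀ x : ℝ, x₀ ≤ x → ∀ m : ℕ, 1 ≤ m → (m : ℝ) ≤ x ^ (2 / 3 - ρ) →
      ∀ (b : ℤ) (Y : ℕ) (D : Finset ℕ), D ⊆ Icc 1 Y → (Y : ℝ) ≤ Real.log x ^ C₀ * D.card →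
      x / m ≤ Real.log x ^ C₀ * (Y : ℝ) ^ g.natDegree →
      ((D.filter (fun n : ℕ => Bad B C T x m (b + m * g.eval (n : ℤ)))).card : ℝ) ≤ D.card / Real.log x ^ A := by
  obtain ⟨H, C', x₁, h1⟩ := Pool.Agent.H96.ED.energy_poly_xm C₀ g hg
  obtain ⟨x₂, h2⟩ := Pool.Agent.H96.ED.gd_win ρ hρ A B C T C' H
  refine ⟨max x₁ x₂, fun x hx m hm1 hm b Y D hD hYD hxY => ?_⟩
  have hm0 : (0 : ℝ) < m := by exact_mod_cast hm1
  rcases Nat.eq_zero_or_pos Y with hY | hY
  · have hDe : D = ∅ := by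
      apply eq_empty_of_forall_notMem
      intro n hn
      have := hD hn
      rw [mem_Icc] at this
      omega
    rw [hDe]
    simp
  have h3 := h1 x ((le_max_left _ _).trans hx) m Y D hY hD hYD (by
    rw [div_le_iff₀ hm0] at hxY
    linarith)
  have h4 := h2 x ((le_max_right _ _).trans hx) m hm1 hm b {n // n ∈ D} (fun n => g.eval ((n : ℕ) : ℤ)) h3
  rw [Fintype.card_coe] at h4
  refine le_trans ?_ h4
  rw [Nat.cast_le]
  apply card_le_card_of_surjOn (fun n => ((n : {n // n ∈ D}) : ℕ))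
  intro n hn
  rw [mem_coe, mem_filter] at hn
  refine ⟨⟨n, hn.1⟩, ?_, rfl⟩
  rw [mem_coe, mem_filter]
  exact ⟨mem_univ _, hn.2⟩

open Classical in
/-- perturbed products -/
lemma products (ρ : ℝ) (hρ : 0 < ρ) (A B C T C₀ k h B₀ : ℕ) (δ : ℝ) (hδ : 0 < δ) :
    ∃ x₀ : ℝ, ∀ x : ℝ, x₀ ≤ x → ∀ m : ℕ, 1 ≤ m → (m : ℝ) ≤ x ^ (2 / 3 - ρ) →
      ∀ (b : ℤ) (Z : Fin (k + 2) → Type) [∀ j, Fintype (Z j)] (a : ∀ j, Z j → ℤ) (M : Fin (k + 2) → ℕ)
        (f : Fin (k + 2) → (∀ j, Z j) → ℤ),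
      (∀ j z, |a j z| ≤ M j) → (∀ j, x ^ δ ≤ M j ∧ (M j : ℝ) ≤ x ^ B₀) → x / m ≤ Real.log x ^ C₀ * ∏ j, (M j : ℝ) →
      (∀ j, (energy h (a j) : ℝ) * M j ≤ Real.log x ^ C₀ * (Fintype.card (Z j) : ℝ) ^ (2 * h)) → Free f →
      (((univ : Finset (∀ j, Z j)).filter
        (fun z => Bad B C T x m (b + m * (∏ j, a j (z j) + ∑ j, f j z)))).card : ℝ) ≤
        Fintype.card (∀ j, Z j) / Real.log x ^ A := by
  obtain ⟨H, C', x₁, h1⟩ := Pool.Agent.H96.ED.energy_xm k C₀ B₀ h δ hδ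
  obtain ⟨x₂, h2⟩ := Pool.Agent.H96.ED.gd_win ρ hρ A B C T C' H
  refine ⟨max (max x₁ x₂) 1, fun x hx m hm1 hm b Z _ a M f ha hM hxM hE hf => ?_⟩
  have hm0 : (0 : ℝ) < m := by exact_mod_cast hm1
  have hx1 : 1 ≤ x := (le_max_right _ _).trans hx
  have h3 := h1 x ((le_max_left _ _).trans ((le_max_left _ _).trans hx)) m hm1 (hm.trans (by
    apply Real.rpow_le_rpow_of_exponent_le hx1
    linarith)) Z a M f hM ha hE (by
    rw [div_le_iff₀ hm0] at hxM
    linarith) hf
  exact h2 x ((le_max_right _ _).trans ((le_max_left _ _).trans hx)) m hm1 hm b (∀ j, Z j)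
    (fun z => ∏ j, a j (z j) + ∑ j, f j z) h3

open Classical in
/-- Let `ρ > 0` and let `A`, `B`, `C`, `T`, `C₀` be natural numbers. For all sufficiently large real `x`, for EVERY integer
`1 ≤ m ≤ x ^ (2 / 3 - ρ)` and for every integer `b` the following three statements hold.

(1) Let `s i`, `i ∈ ι`, be any finite family of integers whose additive energy of order `h` is at most `(log x) ^ C₀` times
`|ι| ^ (2 h) / (x / m)`, which is the smallest possible value for families of integers of the size `x / m` up to the power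
of the logarithm. Then for all `i`, with at most `|ι| / (log x) ^ A` exceptions, ALL even differences
`0 < d ≤ x / (log x) ^ (C + 6)` with `|d - (b + m s i)| ≤ (log x) ^ T` and `gcd(d, m) ≤ (log x) ^ T` satisfy the estimate of
the problem, `|π_d(y; a, q) - M_d(y; q)| ≤ x / (log x) ^ C`, for all moduli `q ≤ (log x) ^ B`, all `a` with
`(a, q) = (a + d, q) = 1` and all `2 ≤ y ≤ x`.

(2) This holds for the `s = g(n)`, `n ∈ D`, where `g` is a fixed nonconstant polynomial with integer coefficients and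
`D ⊆ {1, ..., Y}` is any set with at least `Y / (log x) ^ C₀` elements (for instance the primes), where
`Y ^ deg g ≥ (x / m) / (log x) ^ C₀`.

(3) This holds for the `s = a 1 (z 1) ⋯ a k (z k) + f 1 (z) + ... + f k (z)`, where `k ≥ 2`, the `a j` are any finite
families of integers with `|a j| ≤ M j`, `x ^ δ ≤ M j ≤ x ^ B₀`, `M 1 ⋯ M k ≥ (x / m) / (log x) ^ C₀`, whose energies of
order `h` are at most `(log x) ^ C₀` times `|Z j| ^ (2 h) / M j`, and the `f j` are ARBITRARY integer valued functions such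
that `f j (z)` does not depend on `z j`. -/
theorem result (ρ : ℝ) (hρ : 0 < ρ) (A B C T C₀ : ℕ) :
    (∀ h : ℕ, ∃ x₀ : ℝ, ∀ x : ℝ, x₀ ≤ x → ∀ m : ℕ, 1 ≤ m → (m : ℝ) ≤ x ^ (2 / 3 - ρ) →
      ∀ (b : ℤ) (ι : Type) [Fintype ι] (s : ι → ℤ),
      (energy h s : ℝ) * (x / m) ≤ Real.log x ^ C₀ * (Fintype.card ι : ℝ) ^ (2 * h) →
      (((univ : Finset ι).filter (fun i => Bad B C T x m (b + m * s i))).card : ℝ) ≤
        Fintype.card ι / Real.log x ^ A) ∧
    (∀ g : ℤ[X], 1 ≤ g.natDegree →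
      ∃ x₀ : ℝ, ∀ x : ℝ, x₀ ≤ x → ∀ m : ℕ, 1 ≤ m → (m : ℝ) ≤ x ^ (2 / 3 - ρ) →
      ∀ (b : ℤ) (Y : ℕ) (D : Finset ℕ), D ⊆ Icc 1 Y → (Y : ℝ) ≤ Real.log x ^ C₀ * D.card →
      x / m ≤ Real.log x ^ C₀ * (Y : ℝ) ^ g.natDegree →
      ((D.filter (fun n : ℕ => Bad B C T x m (b + m * g.eval (n : ℤ)))).card : ℝ) ≤ D.card / Real.log x ^ A) ∧
    (∀ k h B₀ : ℕ, 2 ≤ k → ∀ δ : ℝ, 0 < δ →
      ∃ x₀ : ℝ, ∀ x : ℝ, x₀ ≤ x → ∀ m : ℕ, 1 ≤ m → (m : ℝ) ≤ x ^ (2 / 3 - ρ) →
      ∀ (b : ℤ) (Z : Fin k → Type) [∀ j, Fintype (Z j)] (a : ∀ j, Z j → ℤ) (M : Fin k → ℕ)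
        (f : Fin k → (∀ j, Z j) → ℤ),
      (∀ j z, |a j z| ≤ M j) → (∀ j, x ^ δ ≤ M j ∧ (M j : ℝ) ≤ x ^ B₀) → x / m ≤ Real.log x ^ C₀ * ∏ j, (M j : ℝ) →
      (∀ j, (energy h (a j) : ℝ) * M j ≤ Real.log x ^ C₀ * (Fintype.card (Z j) : ℝ) ^ (2 * h)) → Free f →
      (((univ : Finset (∀ j, Z j)).filter
        (fun z => Bad B C T x m (b + m * (∏ j, a j (z j) + ∑ j, f j z)))).card : ℝ) ≤
        Fintype.card (∀ j, Z j) / Real.log x ^ A) := by
  refine ⟨fun h => general ρ hρ A B C T C₀ h, fun g hg => polys ρ hρ A B C T C₀ g hg, fun k h B₀ hk δ hδ => ?_⟩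
  obtain ⟨k, rfl⟩ : ∃ k', k = k' + 2 := ⟨k - 2, by omega⟩
  exact products ρ hρ A B C T C₀ k h B₀ δ hδ

end Pool.Agent.Results.MP_92ef0c_nt.ThinFamiliesInEveryClass
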